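import Mathlib
import Pool.Agent.Helper92.Weak.Var

set_option autoImplicit false

/-!
# Differential forms along a discrete valuation, I
-/

namespace Pool.Agent.Helper50.Forms

open scoped KaehlerDifferential
open Module Pool.Agent.Helper92.Weak

/-- F1. In characteristic zero the differentials of a transcendence basis are a basis of `Ω`. -/
theorem exists_kaehler_basis_aux {k L ι : Type*} [Field k] [CharZero k] [Field L] [Algebra k L]
    {y : ι → L} (hy : IsTranscendenceBasis k y) :
    ∃ b : Basis ι L Ω[L⁄k], ∀ i, b i = KaehlerDifferential.D k L (y i) := by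
  classical
  let R := MvPolynomial ι k
  let : Algebra R L := (MvPolynomial.aeval y).toRingHom.toAlgebra
  have hmap : ∀ p : R, algebraMap R L p = MvPolynomial.aeval y p := fun p => rfl
  have : IsScalarTower k R L := IsScalarTower.of_algebraMap_eq fun c => by
    rw [hmap, MvPolynomial.algebraMap_eq, MvPolynomial.aeval_C]
  have hinj : Function.Injective (algebraMap R L) := hy.1
  have : FaithfulSMul R L := (faithfulSMul_iff_algebraMap_injective R L).mpr hinj
  have : Algebra.IsAlgebraic R L := by
    have h1 := hy.isAlgebraic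
    let : Algebra (Algebra.adjoin k (Set.range y)) R := hy.1.aevalEquiv.symm.toRingHom.toAlgebra
    have : IsScalarTower (Algebra.adjoin k (Set.range y)) R L :=
      IsScalarTower.of_algebraMap_eq fun a => by
        change (a : L) = MvPolynomial.aeval y (hy.1.aevalEquiv.symm a)
        obtain ⟨p, rfl⟩ := hy.1.aevalEquiv.surjective a
        rw [AlgEquiv.symm_apply_apply]
        exact hy.1.algebraMap_aevalEquiv p
    exact Algebra.IsAlgebraic.extendScalars (R := Algebra.adjoin k (Set.range y)) (S := R)
      hy.1.aevalEquiv.symm.injective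
  let : Algebra (FractionRing R) L := FractionRing.liftAlgebra R L
  have : IsScalarTower R (FractionRing R) L := FractionRing.isScalarTower_liftAlgebra R L
  have : Algebra.IsAlgebraic (FractionRing R) L :=
    Algebra.IsAlgebraic.extendScalars (R := R) (IsFractionRing.injective R (FractionRing R))
  have : CharZero R := inferInstance
  have : CharZero (FractionRing R) := IsFractionRing.charZero_of_isFractionRing R
  have : Algebra.FormallyEtale (FractionRing R) L :=
    Algebra.FormallyEtale.of_isSeparable (FractionRing R) L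
  have : Algebra.FormallyEtale R (FractionRing R) :=
    Algebra.FormallyEtale.of_isLocalization (nonZeroDivisors R)
  have : Algebra.FormallyEtale R L := Algebra.FormallyEtale.comp R (FractionRing R) L
  refine ⟨((KaehlerDifferential.mvPolynomialBasis k ι).baseChange L).map
    (KaehlerDifferential.tensorKaehlerEquivOfFormallyEtale k R L), fun i => ?_⟩
  rw [Basis.map_apply, Module.Basis.baseChange_apply, KaehlerDifferential.mvPolynomialBasis_apply,
    KaehlerDifferential.tensorKaehlerEquivOfFormallyEtale_apply,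
    KaehlerDifferential.mapBaseChange_tmul, one_smul, KaehlerDifferential.map_D, hmap,
    MvPolynomial.aeval_X]

theorem exists_kaehler_basis {k L : Type*} [Field k] [CharZero k] [Field L] [Algebra k L] {n : ℕ}
    {y : Fin n → L} (hy : IsTranscendenceBasis k y) :
    ∃ b : Basis (Fin n) L Ω[L⁄k], ∀ i, b i = KaehlerDifferential.D k L (y i) :=
  exists_kaehler_basis_aux hy

section Top

variable {R M : Type*} [CommRing R] [AddCommGroup M] [Module R M] {n : ℕ}

/-- The top exterior power in terms of the determinant. -/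
theorem iota_eq (b : Basis (Fin n) R M) (m : Fin n → M) :
    exteriorPower.ιMulti R n m = b.det m • exteriorPower.ιMulti R n b := by
  have h : exteriorPower.ιMulti R n (M := M) =
      (LinearMap.toSpanSingleton R _ (exteriorPower.ιMulti R n b)).compAlternatingMap b.det := by
    refine Basis.ext_alternating b fun i hi => ?_
    rw [LinearMap.compAlternatingMap_apply, LinearMap.toSpanSingleton_apply]
    let σ : Equiv.Perm (Fin n) := Equiv.ofBijective i (Finite.injective_iff_bijective.1 hi)
    have h1 := (exteriorPower.ιMulti R n (M := M)).map_perm b σ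
    have h2 := b.det.map_perm b σ
    have e1 : (fun j => b (i j)) = (⇑b ∘ ⇑σ) := rfl
    rw [e1, h1, h2, b.det_self, smul_assoc, one_smul]
  have := DFunLike.congr_fun h m
  rw [this, LinearMap.compAlternatingMap_apply, LinearMap.toSpanSingleton_apply]

theorem iota_basis_ne_zero [Nontrivial R] (b : Basis (Fin n) R M) :
    exteriorPower.ιMulti R n b ≠ 0 := by
  intro h
  have h1 : exteriorPower.alternatingMapLinearEquiv b.det (exteriorPower.ιMulti R n b) = 1 := by
    rw [exteriorPower.alternatingMapLinearEquiv_apply_ιMulti, b.det_self]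
  rw [h, map_zero] at h1
  exact zero_ne_one h1

end Top

section Forms

variable {k L : Type*} [Field k] [Field L] [Algebra k L] {n : ℕ}

theorem dform_eq_iota (z : Fin n → L) (b : Basis (Fin n) L Ω[L⁄k])
    (hb : ∀ i, b i = KaehlerDifferential.D k L (z i)) :
    dform k z = exteriorPower.ιMulti L n b := by
  unfold dform
  congr 1
  funext i
  exact (hb i).symm

/-- Change of coordinates. -/
theorem dform_eq_det (x : Fin n → L) (b : Basis (Fin n) L Ω[L⁄k])
    (hb : ∀ i, b i = KaehlerDifferential.D k L (x i)) (z : Fin n → L) :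
    dform k z = b.det (fun j => KaehlerDifferential.D k L (z j)) • dform k x := by
  rw [dform_eq_iota x b hb]
  exact iota_eq b _

/-- F7. `⋀^n Ω` is one-dimensional. -/
theorem exists_smul_dform (z : Fin n → L) (b : Basis (Fin n) L Ω[L⁄k])
    (hb : ∀ i, b i = KaehlerDifferential.D k L (z i)) (ω : ⋀[L]^n Ω[L⁄k]) :
    ∃ f : L, ω = f • dform k z := by
  rw [dform_eq_iota z b hb]
  have h : ω ∈ Submodule.span L (Set.range (exteriorPower.ιMulti L n (M := Ω[L⁄k]))) := by
    rw [exteriorPower.ιMulti_span]
    trivial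
  refine Submodule.span_induction ?_ ?_ ?_ ?_ h
  · rintro _ ⟨m, rfl⟩
    exact ⟨_, iota_eq b m⟩
  · exact ⟨0, by rw [zero_smul]⟩
  · rintro x y _ _ ⟨f, hf⟩ ⟨g, hg⟩
    exact ⟨f + g, by rw [hf, hg, add_smul]⟩
  · rintro c x _ ⟨f, hf⟩
    exact ⟨c * f, by rw [hf, mul_smul]⟩

theorem dform_ne_zero (z : Fin n → L) (b : Basis (Fin n) L Ω[L⁄k])
    (hb : ∀ i, b i = KaehlerDifferential.D k L (z i)) : dform k z ≠ 0 := by
  rw [dform_eq_iota z b hb]
  exact iota_basis_ne_zero b

theorem smul_dform_inj (z : Fin n → L) (b : Basis (Fin n) L Ω[L⁄k])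
    (hb : ∀ i, b i = KaehlerDifferential.D k L (z i)) {f g : L}
    (h : f • dform k z = g • dform k z) : f = g := by
  have h1 : (f - g) • dform k z = 0 := (sub_smul f g (dform k z)).trans (sub_eq_zero.2 h)
  rcases smul_eq_zero.1 h1 with h2 | h2
  · exact sub_eq_zero.1 h2
  · exact absurd h2 (dform_ne_zero z b hb)

/-- If `dz ≠ 0` then the `dz_i` are a basis. -/
theorem exists_basis_of_ne_zero (b₀ : Basis (Fin n) L Ω[L⁄k]) (z : Fin n → L)
    (hz : dform k z ≠ 0) :
    ∃ b : Basis (Fin n) L Ω[L⁄k], ∀ i, b i = KaehlerDifferential.D k L (z i) := by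
  have h1 : b₀.det (fun j => KaehlerDifferential.D k L (z j)) ≠ 0 := by
    intro h
    apply hz
    unfold dform
    rw [iota_eq b₀, h, zero_smul]
  have h2 := (b₀.is_basis_iff_det
    (v := fun j => KaehlerDifferential.D k L (z j))).2 (isUnit_iff_ne_zero.2 h1)
  refine ⟨Basis.mk h2.1 h2.2.ge, fun i => ?_⟩
  rw [Basis.mk_apply]

variable (v : DVal k L)

theorem det_mem_ring (M : Matrix (Fin n) (Fin n) L) (h : ∀ i j, M i j ∈ v.ring) :
    M.det ∈ v.ring := by
  rw [Matrix.det_apply]
  refine Subalgebra.sum_mem _ fun σ _ => ?_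
  have h1 : ∏ i, M (σ i) i ∈ v.ring := Subalgebra.prod_mem _ fun i _ => h _ _
  rcases Int.units_eq_one_or (Equiv.Perm.sign σ) with hs | hs
  · rw [hs, one_smul]
    exact h1
  · rw [hs, Units.neg_smul, one_smul]
    exact Subalgebra.neg_mem _ h1

/-- F2. Local coordinates. -/
theorem isOrd_of_coord (x : Fin n → L) (b : Basis (Fin n) L Ω[L⁄k])
    (hb : ∀ i, b i = KaehlerDifferential.D k L (x i)) (hx : ∀ i, 0 ≤ v (x i))
    (h : ∀ y, 0 ≤ v y → ∀ i, 0 ≤ v (b.repr (KaehlerDifferential.D k L y) i))
    {f : L} (hf : f ≠ 0) : v.IsOrd (f • dform k x) (v f) := by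
  constructor
  · exact ⟨x, f, hx, hf, rfl, rfl⟩
  · rintro m ⟨z, g, hz, hg, rfl, he⟩
    rw [dform_eq_det x b hb z, smul_smul] at he
    have h1 := smul_dform_inj x b hb he
    have h2 : b.det (fun j => KaehlerDifferential.D k L (z j)) ≠ 0 := by
      intro h0
      rw [h0, mul_zero] at h1
      exact hf h1
    have h3 : b.det (fun j => KaehlerDifferential.D k L (z j)) ∈ v.ring := by
      rw [Basis.det_apply]
      refine det_mem_ring v _ fun i j => ?_
      rw [Basis.toMatrix_apply, DVal.mem_ring]
      exact h _ (hz j) i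
    rw [h1, v.map_mul hg h2]
    rw [DVal.mem_ring] at h3
    omega

/-- Replacing one coordinate. -/
theorem dform_update (z : Fin n → L) (b : Basis (Fin n) L Ω[L⁄k])
    (hb : ∀ i, b i = KaehlerDifferential.D k L (z i)) (i : Fin n) (y : L) :
    dform k (Function.update z i y) = b.repr (KaehlerDifferential.D k L y) i • dform k z := by
  rw [dform_eq_det z b hb (Function.update z i y)]
  congr 1
  have e1 : (fun j => KaehlerDifferential.D k L (Function.update z i y j)) =
      Function.update (⇑b) i (KaehlerDifferential.D k L y) := by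
    funext j
    by_cases hj : j = i
    · subst hj
      simp
    · rw [Function.update_of_ne hj, Function.update_of_ne hj, hb]
  rw [e1]
  conv_lhs => rw [← b.sum_repr (KaehlerDifferential.D k L y)]
  have h := b.det.map_update_sum (t := Finset.univ) (i := i)
    (g := fun j => b.repr (KaehlerDifferential.D k L y) j • b j) (m := ⇑b)
  rw [h, Finset.sum_eq_single i]
  · rw [b.det.map_update_smul, Function.update_eq_self, b.det_self, smul_eq_mul, mul_one]
  · intro j _ hj
    rw [b.det.map_update_smul, b.det.map_update_self (⇑b) hj.symm, smul_zero]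
  · simp

/-- Coordinates in which a form has the maximal presentation are local coordinates. -/
theorem partial_mem (z : Fin n → L) (b : Basis (Fin n) L Ω[L⁄k])
    (hb : ∀ i, b i = KaehlerDifferential.D k L (z i)) (hz : ∀ i, 0 ≤ v (z i)) {f : L}
    (hf : f ≠ 0) (h : v.IsOrd (f • dform k z) (v f)) (y : L) (hy : 0 ≤ v y) (i : Fin n) :
    0 ≤ v (b.repr (KaehlerDifferential.D k L y) i) := by
  by_contra hneg
  set c := b.repr (KaehlerDifferential.D k L y) i with hc
  have hc0 : c ≠ 0 := v.ne_zero_of_pos (by omega)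
  have h1 : v (f / c) ∈ {m : ℤ | ∃ (z' : Fin n → L) (f' : L), (∀ i, 0 ≤ v (z' i)) ∧ f' ≠ 0 ∧
      v f' = m ∧ f • dform k z = f' • dform k z'} := by
    refine ⟨Function.update z i y, f / c, ?_, div_ne_zero hf hc0, rfl, ?_⟩
    · intro j
      by_cases hj : j = i
      · subst hj
        simpa using hy
      · rw [Function.update_of_ne hj]
        exact hz j
    · rw [dform_update z b hb i y, smul_smul, ← hc, div_mul_cancel₀ f hc0]
  have h2 := h.2 h1
  rw [v.map_div hf hc0] at h2
  omega

/-- F3. Converse. -/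
theorem exists_coord (b₀ : Basis (Fin n) L Ω[L⁄k]) {ω : ⋀[L]^n Ω[L⁄k]} (hω : ω ≠ 0) {a : ℤ}
    (h : v.IsOrd ω a) :
    ∃ (z : Fin n → L) (b : Basis (Fin n) L Ω[L⁄k]) (f : L),
      (∀ i, b i = KaehlerDifferential.D k L (z i)) ∧ (∀ i, 0 ≤ v (z i)) ∧
      (∀ y, 0 ≤ v y → ∀ i, 0 ≤ v (b.repr (KaehlerDifferential.D k L y) i)) ∧
      f ≠ 0 ∧ v f = a ∧ ω = f • dform k z := by
  obtain ⟨z, f, hz, hf, hfa, he⟩ := h.1
  have hz0 : dform k z ≠ 0 := by
    intro h0
    rw [h0, smul_zero] at he
    exact hω he
  obtain ⟨b, hb⟩ := exists_basis_of_ne_zero b₀ z hz0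
  refine ⟨z, b, f, hb, hz, fun y hy i => ?_, hf, hfa, he⟩
  refine partial_mem v z b hb hz hf ?_ y hy i
  rw [← he, hfa]
  exact h

end Forms

end Pool.Agent.Helper50.Forms
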