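import Mathlib
import Pool.Agent.Helper50.Forms.Basic

set_option autoImplicit false

/-!
# Differential forms along a discrete valuation, II: logarithmic coordinates
-/

namespace Pool.Agent.Helper50.Forms

open scoped KaehlerDifferential
open Module Pool.Agent.Helper92.Weak

section Dlog

variable {k L : Type*} [Field k] [Field L] [Algebra k L]

/-- The logarithmic differential. -/
noncomputable def dl (k : Type*) {L : Type*} [Field k] [Field L] [Algebra k L] (a : L) : Ω[L⁄k] :=
  a⁻¹ • KaehlerDifferential.D k L a

theorem smul_dl {a : L} (ha : a ≠ 0) : a • dl k a = KaehlerDifferential.D k L a := by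
  rw [dl, smul_smul, mul_inv_cancel₀ ha, one_smul]

theorem dl_mul {a b : L} (ha : a ≠ 0) (hb : b ≠ 0) : dl k (a * b) = dl k a + dl k b := by
  unfold dl
  rw [Derivation.leibniz, smul_add, smul_smul, smul_smul]
  have e1 : (a * b)⁻¹ * a = b⁻¹ := by field_simp
  have e2 : (a * b)⁻¹ * b = a⁻¹ := by field_simp
  rw [e1, e2, add_comm]

theorem dl_one : dl k (1 : L) = 0 := by
  unfold dl
  simp

theorem dl_inv {a : L} (ha : a ≠ 0) : dl k a⁻¹ = -dl k a := by
  have h := dl_mul (k := k) ha (inv_ne_zero ha)
  rw [mul_inv_cancel₀ ha, dl_one] at h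
  exact (neg_eq_of_add_eq_zero_right h.symm).symm

theorem dl_pow {a : L} (ha : a ≠ 0) (m : ℕ) : dl k (a ^ m) = (m : L) • dl k a := by
  induction m with
  | zero => rw [pow_zero, dl_one, Nat.cast_zero, zero_smul]
  | succ m ih =>
    rw [pow_succ, dl_mul (pow_ne_zero m ha) ha, ih]
    push_cast
    rw [add_smul, one_smul]

theorem dl_zpow {a : L} (ha : a ≠ 0) (m : ℤ) : dl k (a ^ m) = (m : L) • dl k a := by
  cases m with
  | ofNat m =>
    rw [Int.ofNat_eq_natCast, zpow_natCast, dl_pow ha]
    simp
  | negSucc m =>
    rw [zpow_negSucc, dl_inv (pow_ne_zero _ ha), dl_pow ha, Int.cast_negSucc, neg_smul]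

theorem dl_prod {ι : Type*} (S : Finset ι) (x : ι → L) (c : ι → ℤ) (hx : ∀ i ∈ S, x i ≠ 0) :
    dl k (∏ i ∈ S, x i ^ c i) = ∑ i ∈ S, (c i : L) • dl k (x i) := by
  classical
  induction S using Finset.induction_on with
  | empty => simp [dl_one]
  | insert a s ha ih =>
    have h1 := hx a (Finset.mem_insert_self a s)
    have h2 : ∀ i ∈ s, x i ≠ 0 := fun i hi => hx i (Finset.mem_insert_of_mem hi)
    rw [Finset.prod_insert ha, Finset.sum_insert ha, dl_mul (zpow_ne_zero _ h1)
      (Finset.prod_ne_zero_iff.2 fun i hi => zpow_ne_zero _ (h2 i hi)), ih h2, dl_zpow h1]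

end Dlog

section Log

variable {k L : Type*} [Field k] [Field L] [Algebra k L] {n : ℕ} (v : DVal k L)

theorem ge_of_mem {a : L} (h : a ∈ v.ring) : v.Ge 0 a := (v.mem_ring_iff_ge).1 h

/-- A determinant with entries in the valuation ring and one row in the maximal ideal. -/
theorem det_ge_one (M : Matrix (Fin n) (Fin n) L) (h : ∀ i j, M i j ∈ v.ring) (i₁ : Fin n)
    (h1 : ∀ j, v.Ge 1 (M i₁ j)) : v.Ge 1 M.det := by
  rw [Matrix.det_apply]
  refine DVal.Ge.sum fun σ _ => ?_
  have h2 : v.Ge 1 (∏ i, M (σ i) i) := by
    rw [← Finset.mul_prod_erase Finset.univ (fun i => M (σ i) i) (Finset.mem_univ (σ.symm i₁))]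
    have h3 : v.Ge 1 (M (σ (σ.symm i₁)) (σ.symm i₁)) := by
      rw [Equiv.apply_symm_apply]
      exact h1 _
    have h4 : v.Ge 0 (∏ i ∈ Finset.univ.erase (σ.symm i₁), M (σ i) i) :=
      ge_of_mem v (Subalgebra.prod_mem _ fun i _ => h _ _)
    simpa using h3.mul h4
  rcases Int.units_eq_one_or (Equiv.Perm.sign σ) with hs | hs
  · rw [hs, one_smul]
    exact h2
  · rw [hs, Units.neg_smul, one_smul]
    exact h2.neg

theorem v_intCast [CharZero k] (m : ℤ) : v (m : L) = 0 := by
  have h := v.map_const (m : k)
  rwa [map_intCast] at h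

/-- F4. Logarithmic coordinates. -/
theorem isOrd_log [CharZero k] (x : Fin n → L) (b : Basis (Fin n) L Ω[L⁄k])
    (hb : ∀ i, b i = KaehlerDifferential.D k L (x i)) (S : Finset (Fin n))
    (hx0 : ∀ i ∈ S, x i ≠ 0) (hx : ∀ i ∉ S, 0 ≤ v (x i))
    (h1 : ∀ y, 0 ≤ v y → ∀ i ∈ S, 0 ≤ v (x i * b.repr (KaehlerDifferential.D k L y) i))
    (h2 : ∀ y, 0 ≤ v y → ∀ i ∉ S, 0 ≤ v (b.repr (KaehlerDifferential.D k L y) i))
    (h3 : ∀ y, 0 ≤ v y →
      v.Ge 1 (∑ i ∈ S, (v (x i) : L) * (x i * b.repr (KaehlerDifferential.D k L y) i)))
    (h4 : ∃ c : Fin n → ℤ, ∑ i ∈ S, c i * v (x i) = 1)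
    {f : L} (hf : f ≠ 0) :
    v.IsOrd (f • dform k x) (v f + ∑ i ∈ S, v (x i) - 1) := by
  classical
  have : CharZero L := charZero_of_injective_algebraMap (algebraMap k L).injective
  obtain ⟨c, hc⟩ := h4
  obtain ⟨i₀, hi₀S, hi₀⟩ : ∃ i₀ ∈ S, c i₀ * v (x i₀) ≠ 0 := by
    by_contra hcon
    push Not at hcon
    rw [Finset.sum_eq_zero hcon] at hc
    omega
  have hci : c i₀ ≠ 0 := left_ne_zero_of_mul hi₀
  have hvi : v (x i₀) ≠ 0 := right_ne_zero_of_mul hi₀
  have hPx : ∏ i ∈ S, x i ≠ 0 := Finset.prod_ne_zero_iff.2 hx0
  have hvP : v (∏ i ∈ S, x i) = ∑ i ∈ S, v (x i) := v.map_prod S x hx0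
  constructor
  · -- the presentation
    set s : L := ∏ i ∈ S, x i ^ c i with hs
    have hs0 : s ≠ 0 := Finset.prod_ne_zero_iff.2 fun i hi => zpow_ne_zero _ (hx0 i hi)
    have hvs : v s = 1 := by
      rw [hs, v.map_prod S _ fun i hi => zpow_ne_zero _ (hx0 i hi), ← hc]
      exact Finset.sum_congr rfl fun i _ => v.map_zpow _ _
    have hdls : dl k s = ∑ i ∈ S, (c i : L) • dl k (x i) := dl_prod S x c hx0
    let q : Fin n → L := fun j => if j ∈ S then (if j = i₀ then s else x j * s ^ (-(v (x j)))) else 1
    let z : Fin n → L := fun j => if j ∈ S then (if j = i₀ then s else x j * s ^ (-(v (x j))))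
      else x j
    have hq0 : ∀ j, q j ≠ 0 := by
      intro j
      simp only [q]
      split_ifs with hj hj'
      · exact hs0
      · exact mul_ne_zero (hx0 j hj) (zpow_ne_zero _ hs0)
      · exact one_ne_zero
    have hvq : ∀ j, v (q j) = if j = i₀ then 1 else 0 := by
      intro j
      simp only [q]
      split_ifs with hj hj' hj'
      · exact hvs
      · rw [v.map_mul (hx0 j hj) (zpow_ne_zero _ hs0), v.map_zpow, hvs]
        ring
      · exact absurd (hj' ▸ hi₀S) hj
      · exact v.map_one
    have hz : ∀ j, 0 ≤ v (z j) := by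
      intro j
      by_cases hj : j ∈ S
      · have e : z j = q j := by simp only [z, q, if_pos hj]
        rw [e, hvq]
        split_ifs <;> omega
      · have e : z j = x j := by simp only [z, if_neg hj]
        rw [e]
        exact hx j hj
    -- the matrix
    let c' : Fin n → L := fun i => if i ∈ S then (c i : L) else 0
    let e' : Fin n → L := fun j => if j ∈ S then (v (x j) : L) else 0
    let r : Fin n → L := fun i => if i ∈ S then (x i)⁻¹ else 1
    let Q : Matrix (Fin n) (Fin n) L := Matrix.of fun j i =>
      if j = i₀ then c' i else (if i = j then 1 else 0) - e' j * c' i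
    have hdl : ∀ j ∈ S, ∀ i, b.repr (dl k (x j)) i = if i = j then (x j)⁻¹ else 0 := by
      intro j _ i
      rw [dl, ← hb, map_smul, Finsupp.smul_apply, b.repr_self, Finsupp.single_apply, smul_eq_mul]
      split_ifs with h h' h'
      · rw [mul_one]
      · exact absurd h.symm h'
      · exact absurd h'.symm h
      · rw [mul_zero]
    have hdls' : ∀ i, b.repr (dl k s) i = r i * c' i := by
      intro i
      rw [hdls, map_sum, Finsupp.finsetSum_apply]
      simp only [map_smul, Finsupp.smul_apply, smul_eq_mul]
      by_cases hi : i ∈ S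
      · rw [Finset.sum_eq_single i]
        · rw [hdl i hi, if_pos rfl]
          simp only [r, c', if_pos hi]
          ring
        · intro j hj hji
          rw [hdl j hj, if_neg hji.symm, mul_zero]
        · intro h
          exact absurd hi h
      · rw [Finset.sum_eq_zero]
        · simp only [c', if_neg hi, mul_zero]
        · intro j hj
          rw [hdl j hj, if_neg (by rintro rfl; exact hi hj), mul_zero]
    have hT : ∀ i j, b.toMatrix (fun j => KaehlerDifferential.D k L (z j)) i j =
        r i * (q j * Q j i) := by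
      intro i j
      rw [Basis.toMatrix_apply]
      by_cases hj : j ∈ S
      · by_cases hj' : j = i₀
        · subst hj'
          have e : z j = s := by simp only [z, if_pos hj, if_true]
          have e2 : q j = s := by simp only [q, if_pos hj, if_true]
          rw [e, e2, ← smul_dl hs0, map_smul, Finsupp.smul_apply, hdls', smul_eq_mul]
          simp only [Q, Matrix.of_apply, if_true]
          ring
        · have e : z j = x j * s ^ (-(v (x j))) := by simp only [z, if_pos hj, if_neg hj']
          have e2 : q j = x j * s ^ (-(v (x j))) := by simp only [q, if_pos hj, if_neg hj']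
          have e3 : dl k (z j) = dl k (x j) + ((-(v (x j)) : ℤ) : L) • dl k s := by
            rw [e, dl_mul (hx0 j hj) (zpow_ne_zero _ hs0), dl_zpow hs0]
          have hz0 : z j ≠ 0 := by rw [e, ← e2]; exact hq0 j
          rw [← smul_dl hz0, e3, map_smul, map_add, map_smul, Finsupp.smul_apply,
            Finsupp.add_apply, Finsupp.smul_apply, hdls', hdl j hj, smul_eq_mul, smul_eq_mul]
          have e4 : z j = q j := by rw [e, e2]
          rw [e4]
          simp only [Q, Matrix.of_apply, if_neg hj', e', if_pos hj]
          by_cases hij : i = j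
          · subst hij
            simp only [if_true, r, if_pos hj]
            push_cast
            ring
          · simp only [if_neg hij]
            push_cast
            ring
      · have hj' : j ≠ i₀ := by rintro rfl; exact hj hi₀S
        have e : z j = x j := by simp only [z, if_neg hj]
        have e2 : q j = 1 := by simp only [q, if_neg hj]
        rw [e, e2, ← hb, b.repr_self, Finsupp.single_apply]
        simp only [Q, Matrix.of_apply, if_neg hj', e', if_neg hj]
        by_cases hij : i = j
        · subst hij
          simp only [if_true, r, if_neg hj]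
          ring
        · simp only [if_neg hij, if_neg (Ne.symm hij)]
          ring
    have hQdet : Q.det = c i₀ := by
      have e1 : Q.det = (Matrix.updateRow (1 : Matrix (Fin n) (Fin n) L) i₀ c').det := by
        refine Matrix.det_eq_of_forall_row_eq_smul_add_const
          (fun j => if j = i₀ then 0 else - e' j) i₀ (by simp) ?_
        intro j i
        by_cases hj : j = i₀
        · subst hj
          simp [Q]
        · simp only [Q, Matrix.of_apply, if_neg hj, Matrix.updateRow_ne hj, Matrix.updateRow_self,
            Matrix.one_apply]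
          by_cases hij : i = j
          · subst hij
            simp
            ring
          · simp only [if_neg hij, if_neg (Ne.symm hij)]
            ring
      have e2 : c' = ∑ j, c' j • (1 : Matrix (Fin n) (Fin n) L) j := by
        funext i
        rw [Finset.sum_apply, Finset.sum_eq_single i]
        · simp [Matrix.one_apply]
        · intro j _ hj
          simp [Matrix.one_apply, hj]
        · simp
      rw [e1, e2, Matrix.det_updateRow_sum, Matrix.det_one, smul_eq_mul, mul_one]
      simp only [c', if_pos hi₀S]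
    have hdet : b.det (fun j => KaehlerDifferential.D k L (z j)) =
        (∏ i, r i) * ((∏ j, q j) * c i₀) := by
      rw [Basis.det_apply]
      have e1 : b.toMatrix (fun j => KaehlerDifferential.D k L (z j)) =
          Matrix.of fun i j => r i * (Matrix.of fun i j => q j * Q.transpose i j) i j := by
        ext i j
        rw [hT]
        rfl
      rw [e1, Matrix.det_mul_column, Matrix.det_mul_row, Matrix.det_transpose, hQdet]
    have hr : ∏ i, r i = (∏ i ∈ S, x i)⁻¹ := by
      simp only [r]
      rw [Finset.prod_ite_mem, Finset.univ_inter, Finset.prod_inv_distrib]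
    have hdq : v (∏ j, q j) = 1 := by
      rw [v.map_prod _ _ fun j _ => hq0 j]
      simp only [hvq]
      simp
    have hq0' : ∏ j, q j ≠ 0 := Finset.prod_ne_zero_iff.2 fun j _ => hq0 j
    have hcL : (c i₀ : L) ≠ 0 := by exact_mod_cast hci
    refine ⟨z, f * (∏ i ∈ S, x i) / ((∏ j, q j) * c i₀), hz,
      div_ne_zero (mul_ne_zero hf hPx) (mul_ne_zero hq0' hcL), ?_, ?_⟩
    · rw [v.map_div (mul_ne_zero hf hPx) (mul_ne_zero hq0' hcL), v.map_mul hf hPx, hvP,
        v.map_mul hq0' hcL, hdq, v_intCast]
      ring
    · rw [dform_eq_det x b hb z, hdet, hr, smul_smul]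
      congr 1
      field_simp
  · -- the upper bound
    rintro m ⟨z, g, hz, hg, rfl, he⟩
    rw [dform_eq_det x b hb z, smul_smul] at he
    have h5 := smul_dform_inj x b hb he
    set T := b.toMatrix (fun j => KaehlerDifferential.D k L (z j)) with hT
    have hdet : b.det (fun j => KaehlerDifferential.D k L (z j)) = T.det := b.det_apply _
    rw [hdet] at h5
    have h6 : T.det ≠ 0 := by
      intro h0
      rw [h0, mul_zero] at h5
      exact hf h5
    let N : Matrix (Fin n) (Fin n) L := Matrix.of fun i j => (if i ∈ S then x i else 1) * T i j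
    have hN : N.det = (∏ i ∈ S, x i) * T.det := by
      change (Matrix.of fun i j => (if i ∈ S then x i else 1) * T i j).det = _
      rw [Matrix.det_mul_column, Finset.prod_ite_mem, Finset.univ_inter]
    have hNmem : ∀ i j, N i j ∈ v.ring := by
      intro i j
      rw [DVal.mem_ring]
      simp only [N, Matrix.of_apply, hT, Basis.toMatrix_apply]
      split_ifs with hi
      · exact h1 _ (hz j) i hi
      · rw [one_mul]
        exact h2 _ (hz j) i hi
    let e : Fin n → L := fun i => if i ∈ S then (v (x i) : L) else 0
    have hrow := Matrix.det_updateRow_sum N i₀ e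
    have hge : v.Ge 1 ((Matrix.updateRow N i₀ (∑ i, e i • N i)).det) := by
      have hentry : ∀ j, v.Ge 1 ((∑ i, e i • N i) j) := by
        intro j
        have h7 := h3 _ (hz j)
        have e1 : (∑ i, e i • N i) j = ∑ i ∈ S, (v (x i) : L) *
            (x i * b.repr (KaehlerDifferential.D k L (z j)) i) := by
          rw [Finset.sum_apply, ← Finset.sum_subset (Finset.subset_univ S)]
          · refine Finset.sum_congr rfl fun i hi => ?_
            simp only [e, Pi.smul_apply, smul_eq_mul, if_pos hi, N, Matrix.of_apply, hT,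
              Basis.toMatrix_apply]
          · intro i _ hi
            simp only [e, Pi.smul_apply, if_neg hi, zero_smul]
        rw [e1]
        exact h7
      refine det_ge_one v _ ?_ i₀ ?_
      · intro i j
        by_cases hi : i = i₀
        · subst hi
          rw [Matrix.updateRow_self]
          exact (v.mem_ring_iff_ge).2 ((hentry j).mono (by norm_num))
        · rw [Matrix.updateRow_ne hi]
          exact hNmem i j
      · intro j
        rw [Matrix.updateRow_self]
        exact hentry j
    rw [hrow, hN, smul_eq_mul] at hge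
    have he0 : e i₀ ≠ 0 := by
      simp only [e, if_pos hi₀S]
      exact_mod_cast hvi
    have hne : e i₀ * ((∏ i ∈ S, x i) * T.det) ≠ 0 := mul_ne_zero he0 (mul_ne_zero hPx h6)
    rw [DVal.ge_iff hne, v.map_mul he0 (mul_ne_zero hPx h6), v.map_mul hPx h6, hvP] at hge
    have hve : v (e i₀) = 0 := by
      simp only [e, if_pos hi₀S]
      exact v_intCast v _
    rw [hve] at hge
    have hge' : (1 : ℤ) ≤ 0 + (∑ i ∈ S, v (x i) + v T.det) := by exact_mod_cast hge
    rw [h5, v.map_mul hg h6]
    omega

end Log

end Pool.Agent.Helper50.Forms
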