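import Mathlib
import Pool.Agent.Helper50.Forms.Log

set_option autoImplicit false

/-!
# Differential forms along a discrete valuation, III: uniformizers and towers
-/

namespace Pool.Agent.Helper50.Forms

open scoped KaehlerDifferential
open Module Pool.Agent.Helper92.Weak MvPolynomial

section Poly

variable {k : Type*} [Field k] {σ : Type*}

/-- A nonzero polynomial is constant, or has a nonzero partial derivative of smaller degree. -/
theorem exists_pderiv [CharZero k] (G : MvPolynomial σ k) (hG : G ≠ 0) :
    (∃ c : k, c ≠ 0 ∧ G = C c) ∨ ∃ i, pderiv i G ≠ 0 ∧ (pderiv i G).totalDegree < G.totalDegree := by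
  classical
  by_cases h : ∃ m ∈ G.support, m ≠ 0
  · right
    obtain ⟨m, hm, hm0⟩ := h
    obtain ⟨i, hi⟩ := Finsupp.ne_iff.1 hm0
    have hi' : m i ≠ 0 := by simpa using hi
    have h1 : pderiv i G ≠ 0 := by
      intro h0
      have h2 := coeff_pderiv (i := i) G (m - Finsupp.single i 1)
      rw [h0, coeff_zero] at h2
      have h3 : m - Finsupp.single i 1 + Finsupp.single i 1 = m := by
        ext j
        by_cases hj : j = i
        · subst hj
          simp
          omega
        · simp [Finsupp.single_apply, Ne.symm hj]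
      rw [h3] at h2
      have h4 : (coeff m G) ≠ 0 := mem_support_iff.1 hm
      have h5 : (((m - Finsupp.single i 1 : σ →₀ ℕ) i : k) + 1) ≠ 0 :=
        Nat.cast_add_one_ne_zero _
      exact mul_ne_zero h4 h5 h2.symm
    refine ⟨i, h1, ?_⟩
    have key : ∀ m' ∈ (pderiv i G).support, (m'.sum fun _ e => e) + 1 ≤ G.totalDegree := by
      intro m' hm'
      have h6 : coeff (m' + Finsupp.single i 1) G ≠ 0 := by
        have := mem_support_iff.1 hm'
        rw [coeff_pderiv] at this
        exact left_ne_zero_of_mul this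
      have h7 := le_totalDegree (mem_support_iff.2 h6)
      have h8 : ((m' + Finsupp.single i 1).sum fun _ e => e) = (m'.sum fun _ e => e) + 1 := by
        rw [Finsupp.sum_add_index' (fun _ => rfl) (fun _ _ _ => rfl)]
        simp
      omega
    have h9 : 0 < G.totalDegree := by
      obtain ⟨m', hm'⟩ := support_nonempty.2 h1
      have := key m' hm'
      omega
    rw [totalDegree, Finset.sup_lt_iff h9]
    intro m' hm'
    have := key m' hm'
    omega
  · left
    push Not at h
    refine ⟨coeff 0 G, ?_, ?_⟩
    · intro h0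
      apply hG
      ext m
      rw [coeff_zero]
      by_contra hm
      have := h m (mem_support_iff.2 hm)
      rw [this] at hm
      exact hm h0
    · ext m
      rw [coeff_C]
      split_ifs with hm
      · rw [← hm]
      · by_contra hm'
        exact hm (h m (mem_support_iff.2 hm')).symm

end Poly

section Coord

variable {k L : Type*} [Field k] [Field L] [Algebra k L] {n : ℕ}

theorem D_aeval (z : Fin n → L) (G : MvPolynomial (Fin n) k) :
    KaehlerDifferential.D k L (aeval z G) =
      ∑ i, aeval z (pderiv i G) • KaehlerDifferential.D k L (z i) := by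
  classical
  induction G using MvPolynomial.induction_on with
  | C a => simp
  | add p q hp hq =>
    simp only [map_add, hp, hq, add_smul, Finset.sum_add_distrib]
  | mul_X p j hp =>
    simp only [map_mul, aeval_X, Derivation.leibniz, hp, smul_eq_mul, pderiv_X, map_add]
    have h : ∀ i, (aeval z) p * (aeval z) (Pi.single (M := fun _ => MvPolynomial (Fin n) k) i 1 j) =
        if i = j then aeval z p else 0 := by
      intro i
      by_cases hij : i = j
      · subst hij
        simp
      · simp [hij, Pi.single_eq_of_ne (Ne.symm hij)]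
    simp only [h, add_smul, Finset.sum_add_distrib, ite_smul, zero_smul, Finset.sum_ite_eq',
      Finset.mem_univ, if_true, Finset.smul_sum, smul_smul]

theorem repr_aeval (z : Fin n → L) (b : Basis (Fin n) L Ω[L⁄k])
    (hb : ∀ i, b i = KaehlerDifferential.D k L (z i)) (G : MvPolynomial (Fin n) k) (i : Fin n) :
    b.repr (KaehlerDifferential.D k L (aeval z G)) i = aeval z (pderiv i G) := by
  rw [D_aeval]
  simp only [← hb, map_sum, map_smul, b.repr_self, Finsupp.finsetSum_apply, Finsupp.smul_apply,
    smul_eq_mul, Finsupp.single_apply, mul_ite, mul_one, mul_zero, Finset.sum_ite_eq',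
    Finset.mem_univ, if_true]

theorem aeval_ne_zero [CharZero k] (z : Fin n → L) (b : Basis (Fin n) L Ω[L⁄k])
    (hb : ∀ i, b i = KaehlerDifferential.D k L (z i)) (d : ℕ) :
    ∀ G : MvPolynomial (Fin n) k, G.totalDegree < d → G ≠ 0 → aeval z G ≠ 0 := by
  induction d with
  | zero => intro G h; omega
  | succ d ih =>
    intro G hd hG h0
    rcases exists_pderiv G hG with ⟨c, hc, rfl⟩ | ⟨i, hi, hlt⟩
    · rw [algHom_C] at h0
      exact hc ((map_eq_zero_iff _ (algebraMap k L).injective).1 h0)
    · refine ih (pderiv i G) (by omega) hi ?_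
      rw [← repr_aeval z b hb, h0]
      simp

theorem algebraicIndependent_of_basis [CharZero k] (z : Fin n → L) (b : Basis (Fin n) L Ω[L⁄k])
    (hb : ∀ i, b i = KaehlerDifferential.D k L (z i)) : AlgebraicIndependent k z := by
  rw [algebraicIndependent_iff]
  intro G h
  by_contra hG
  exact aeval_ne_zero z b hb (G.totalDegree + 1) G (by omega) hG h

theorem isTranscendenceBasis_of_basis [CharZero k] {y : Fin n → L} (hy : IsTranscendenceBasis k y)
    (z : Fin n → L) (b : Basis (Fin n) L Ω[L⁄k])
    (hb : ∀ i, b i = KaehlerDifferential.D k L (z i)) : IsTranscendenceBasis k z := by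
  refine (algebraicIndependent_of_basis z b hb).isTranscendenceBasis_of_lift_trdeg_le_of_finite ?_
  exact hy.lift_cardinalMk_eq_trdeg.symm.le

variable (v : DVal k L)

/-- If the derivations preserve the maximal ideal, the valuation is trivial on the polynomials. -/
theorem v_aeval_eq_zero [CharZero k] (z : Fin n → L) (b : Basis (Fin n) L Ω[L⁄k])
    (hb : ∀ i, b i = KaehlerDifferential.D k L (z i)) (hz : ∀ i, 0 ≤ v (z i))
    (hm : ∀ x, v.Ge 1 x → ∀ i, v.Ge 1 (b.repr (KaehlerDifferential.D k L x) i)) (d : ℕ) :
    ∀ G : MvPolynomial (Fin n) k, G.totalDegree < d → G ≠ 0 → v (aeval z G) = 0 := by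
  have hring : ∀ G : MvPolynomial (Fin n) k, aeval z G ∈ v.ring := by
    intro G
    induction G using MvPolynomial.induction_on with
    | C a => rw [algHom_C]; exact v.ring.algebraMap_mem a
    | add p q hp hq => rw [map_add]; exact v.ring.add_mem hp hq
    | mul_X p j hp => rw [map_mul, aeval_X]; exact v.ring.mul_mem hp (hz j)
  induction d with
  | zero => intro G h; omega
  | succ d ih =>
    intro G hd hG
    rcases exists_pderiv G hG with ⟨c, hc, rfl⟩ | ⟨i, hi, hlt⟩
    · rw [algHom_C]
      exact v.map_const c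
    · have h1 := hring G
      rw [DVal.mem_ring] at h1
      by_contra hne
      have h2 : v.Ge 1 (aeval z G) := by
        right
        have : (1 : ℤ) ≤ v (aeval z G) := by omega
        exact_mod_cast this
      have h3 := hm _ h2 i
      rw [repr_aeval z b hb] at h3
      have h4 := ih (pderiv i G) (by omega) hi
      have h5 := aeval_ne_zero z b hb _ (pderiv i G) (Nat.lt_succ_self _) hi
      rw [DVal.ge_iff h5, h4] at h3
      norm_num at h3

/-- F5. One coordinate can be taken to be a uniformizer. -/
theorem exists_coord_uniformizer [CharZero k] {y : Fin n → L} (hy : IsTranscendenceBasis k y)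
    (v : DVal k L) (p : L) (hp : v p = 1) (z : Fin n → L) (b : Basis (Fin n) L Ω[L⁄k])
    (hb : ∀ i, b i = KaehlerDifferential.D k L (z i)) (hz : ∀ i, 0 ≤ v (z i))
    (h : ∀ y, 0 ≤ v y → ∀ i, 0 ≤ v (b.repr (KaehlerDifferential.D k L y) i)) :
    ∃ (z' : Fin n → L) (b' : Basis (Fin n) L Ω[L⁄k]) (i₀ : Fin n) (u : L),
      (∀ i, b' i = KaehlerDifferential.D k L (z' i)) ∧ (∀ i, 0 ≤ v (z' i)) ∧
      (∀ y, 0 ≤ v y → ∀ i, 0 ≤ v (b'.repr (KaehlerDifferential.D k L y) i)) ∧
      z' i₀ = p ∧ u ≠ 0 ∧ v u = 0 ∧ dform k z = u • dform k z' := by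
  have hp0 : p ≠ 0 := v.ne_zero_of_pos (by omega)
  have hex : ∃ i₀, ¬ v.Ge 1 (b.repr (KaehlerDifferential.D k L p) i₀) := by
    by_contra hcon
    push Not at hcon
    have hm : ∀ x, v.Ge 1 x → ∀ i, v.Ge 1 (b.repr (KaehlerDifferential.D k L x) i) := by
      intro x hx i
      by_cases hx0 : x = 0
      · rw [hx0]
        left
        simp
      rw [DVal.ge_iff hx0] at hx
      have hx' : (1 : ℤ) ≤ v x := by exact_mod_cast hx
      have hu : 0 ≤ v (x / p) := by
        rw [v.map_div hx0 hp0]
        omega
      have e1 : KaehlerDifferential.D k L x =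
          p • KaehlerDifferential.D k L (x / p) + (x / p) • KaehlerDifferential.D k L p := by
        rw [← Derivation.leibniz, mul_div_cancel₀ x hp0]
      rw [e1, map_add, map_smul, map_smul, Finsupp.add_apply, Finsupp.smul_apply,
        Finsupp.smul_apply, smul_eq_mul, smul_eq_mul]
      have h2 : v.Ge 1 p := by
        right
        rw [hp]
        norm_num
      have h3 : v.Ge 0 (b.repr (KaehlerDifferential.D k L (x / p)) i) :=
        ge_of_mem v (h _ hu i)
      have h4 : v.Ge 0 (x / p) := ge_of_mem v hu
      have h5 := h2.mul h3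
      have h6 := h4.mul (hcon i)
      rw [add_zero] at h5
      rw [zero_add] at h6
      exact h5.add h6
    have hval : ∀ G : MvPolynomial (Fin n) k, G ≠ 0 → v (aeval z G) = 0 := fun G hG =>
      v_aeval_eq_zero v z b hb hz hm (G.totalDegree + 1) G (by omega) hG
    have halg := (isTranscendenceBasis_of_basis hy z b hb).isAlgebraic
    obtain ⟨q, hq0, hq⟩ := halg.isAlgebraic p
    rw [Polynomial.aeval_def, Polynomial.eval₂_eq_sum, Polynomial.sum_def] at hq
    have hne : q.support.Nonempty := Polynomial.support_nonempty.2 hq0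
    set j₀ := q.support.min' hne with hj₀
    have hj₀mem : j₀ ∈ q.support := Finset.min'_mem _ _
    have hcoef : ∀ j ∈ q.support, (algebraMap (Algebra.adjoin k (Set.range z)) L (q.coeff j)) ≠ 0 ∧
        v (algebraMap (Algebra.adjoin k (Set.range z)) L (q.coeff j)) = 0 := by
      intro j hj
      have h1 : q.coeff j ≠ 0 := Polynomial.mem_support_iff.1 hj
      have h2 : ∀ a : L, a ∈ Algebra.adjoin k (Set.range z) →
          ∃ G : MvPolynomial (Fin n) k, aeval z G = a := by
        intro a ha
        rw [Algebra.adjoin_range_eq_range_aeval] at ha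
        exact ha
      obtain ⟨G, hG⟩ := h2 _ (q.coeff j).2
      have h3 : (algebraMap (Algebra.adjoin k (Set.range z)) L (q.coeff j)) = aeval z G := by
        rw [hG]
        rfl
      have h4 : (algebraMap (Algebra.adjoin k (Set.range z)) L (q.coeff j)) ≠ 0 := by
        intro h0
        exact h1 (Subtype.ext h0)
      refine ⟨h4, ?_⟩
      rw [h3]
      apply hval
      rintro rfl
      rw [h3, map_zero] at h4
      exact h4 rfl
    rw [← Finset.add_sum_erase _ _ hj₀mem] at hq
    have h1 : v.Ge (j₀ + 1) (∑ j ∈ q.support.erase j₀,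
        (algebraMap (Algebra.adjoin k (Set.range z)) L (q.coeff j)) * p ^ j) := by
      refine DVal.Ge.sum fun j hj => ?_
      have hj' := Finset.mem_of_mem_erase hj
      have hlt : j₀ < j := lt_of_le_of_ne (Finset.min'_le _ _ hj')
        (Finset.ne_of_mem_erase hj).symm
      right
      rw [v.map_mul (hcoef j hj').1 (pow_ne_zero _ hp0), (hcoef j hj').2, v.map_pow, hp]
      push_cast
      have : (j₀ : ℚ) + 1 ≤ j := by exact_mod_cast hlt
      linarith
    have h2 : (algebraMap (Algebra.adjoin k (Set.range z)) L (q.coeff j₀)) * p ^ j₀ ≠ 0 :=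
      mul_ne_zero (hcoef j₀ hj₀mem).1 (pow_ne_zero _ hp0)
    have h3 : v ((algebraMap (Algebra.adjoin k (Set.range z)) L (q.coeff j₀)) * p ^ j₀) = j₀ := by
      rw [v.map_mul (hcoef j₀ hj₀mem).1 (pow_ne_zero _ hp0), (hcoef j₀ hj₀mem).2, v.map_pow, hp]
      ring
    have h4 : v.Ge (j₀ + 1) ((algebraMap (Algebra.adjoin k (Set.range z)) L (q.coeff j₀)) *
        p ^ j₀) := by
      have h5 := h1.neg
      have h6 : -(∑ j ∈ q.support.erase j₀,
          (algebraMap (Algebra.adjoin k (Set.range z)) L (q.coeff j)) * p ^ j) =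
          (algebraMap (Algebra.adjoin k (Set.range z)) L (q.coeff j₀)) * p ^ j₀ := by
        linear_combination -hq
      rwa [h6] at h5
    rw [DVal.ge_iff h2, h3] at h4
    push_cast at h4
    linarith
  obtain ⟨i₀, hi₀⟩ := hex
  set c := b.repr (KaehlerDifferential.D k L p) i₀ with hc
  have hc0 : c ≠ 0 := by
    intro h0
    exact hi₀ (Or.inl h0)
  have hvc : v c = 0 := by
    have h1 := h p (by omega) i₀
    rw [← hc] at h1
    rw [DVal.ge_iff hc0] at hi₀
    by_contra hne
    apply hi₀
    have : (1 : ℤ) ≤ v c := by omega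
    exact_mod_cast this
  have hupd := dform_update z b hb i₀ p
  rw [← hc] at hupd
  have hne : dform k (Function.update z i₀ p) ≠ 0 := by
    rw [hupd]
    exact smul_ne_zero hc0 (dform_ne_zero z b hb)
  obtain ⟨b', hb'⟩ := exists_basis_of_ne_zero b (Function.update z i₀ p) hne
  have hz' : ∀ i, 0 ≤ v (Function.update z i₀ p i) := by
    intro i
    by_cases hi : i = i₀
    · subst hi
      rw [Function.update_self, hp]
      omega
    · rw [Function.update_of_ne hi]
      exact hz i
  refine ⟨Function.update z i₀ p, b', i₀, c⁻¹, hb', hz', ?_, by simp, inv_ne_zero hc0, ?_, ?_⟩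
  · intro y hy i
    have h1 : v.IsOrd ((1 : L) • dform k (Function.update z i₀ p)) (v (1 : L)) := by
      have h2 := isOrd_of_coord v z b hb hz h hc0
      rw [one_smul, hupd, v.map_one, ← hvc]
      exact h2
    exact partial_mem v _ b' hb' hz' one_ne_zero h1 y hy i
  · rw [v.map_inv, hvc]
    rfl
  · rw [hupd, smul_smul, inv_mul_cancel₀ hc0, one_smul]

end Coord

/-- F6. Lifting to `L = K(t)`. -/
theorem exists_basis_tower {k K L : Type*} [Field k] [CharZero k] [Field K] [Field L] [Algebra k K]
    [Algebra k L] [Algebra K L] [IsScalarTower k K L] {d r : ℕ} {y : Fin d → K}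
    (hy : IsTranscendenceBasis k y) (t : Fin r → L) (ht : AlgebraicIndependent K t)
    (hgen : IntermediateField.adjoin K (Set.range t) = ⊤)
    (z : Fin d → K) (b : Basis (Fin d) K Ω[K⁄k])
    (hb : ∀ i, b i = KaehlerDifferential.D k K (z i)) :
    ∃ B : Basis (Fin (d + r)) L Ω[L⁄k],
      (∀ i, B i = KaehlerDifferential.D k L (Fin.append (fun i => algebraMap K L (z i)) t i)) ∧
      (∀ (f : K) (i : Fin d), B.repr (KaehlerDifferential.D k L (algebraMap K L f)) (Fin.castAdd r i) =
        algebraMap K L (b.repr (KaehlerDifferential.D k K f) i)) ∧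
      (∀ (f : K) (j : Fin r),
        B.repr (KaehlerDifferential.D k L (algebraMap K L f)) (Fin.natAdd d j) = 0) := by
  classical
  have hz := isTranscendenceBasis_of_basis hy z b hb
  have ht' : IsTranscendenceBasis K t := by
    rw [ht.isTranscendenceBasis_iff_isAlgebraic]
    constructor
    intro a
    have ha : a ∈ IntermediateField.adjoin K (Set.range t) := by
      rw [hgen]
      trivial
    rw [IntermediateField.mem_adjoin_iff_div] at ha
    obtain ⟨r, hr, s, hs, rfl⟩ := ha
    have h1 : IsAlgebraic (Algebra.adjoin K (Set.range t)) r :=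
      isAlgebraic_algebraMap (⟨r, hr⟩ : Algebra.adjoin K (Set.range t))
    have h2 : IsAlgebraic (Algebra.adjoin K (Set.range t)) s :=
      isAlgebraic_algebraMap (⟨s, hs⟩ : Algebra.adjoin K (Set.range t))
    rw [div_eq_mul_inv]
    exact h1.mul h2.inv
  obtain ⟨B₀, hB₀⟩ := exists_kaehler_basis_aux (hz.sumElim_comp ht')
  let e : Fin r ⊕ Fin d ≃ Fin (d + r) := (Equiv.sumComm _ _).trans finSumFinEquiv
  have he1 : ∀ i, e.symm (Fin.castAdd r i) = Sum.inr i := by
    intro i
    rw [Equiv.symm_apply_eq]
    simp [e]
  have he2 : ∀ j, e.symm (Fin.natAdd d j) = Sum.inl j := by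
    intro j
    rw [Equiv.symm_apply_eq]
    simp [e]
  have hB : ∀ i, (B₀.reindex e) i =
      KaehlerDifferential.D k L (Fin.append (fun i => algebraMap K L (z i)) t i) := by
    intro i
    rw [Basis.reindex_apply, hB₀]
    refine Fin.addCases (fun i => ?_) (fun j => ?_) i
    · rw [he1, Fin.append_left]
      rfl
    · rw [he2, Fin.append_right]
      rfl
  have hD : ∀ f : K, KaehlerDifferential.D k L (algebraMap K L f) =
      ∑ i, algebraMap K L (b.repr (KaehlerDifferential.D k K f) i) •
        (B₀.reindex e) (Fin.castAdd r i) := by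
    intro f
    have h1 : KaehlerDifferential.D k L (algebraMap K L f) =
        KaehlerDifferential.map k k K L (KaehlerDifferential.D k K f) :=
      (KaehlerDifferential.map_D k k K L f).symm
    rw [h1]
    conv_lhs => rw [← b.sum_repr (KaehlerDifferential.D k K f)]
    rw [map_sum]
    refine Finset.sum_congr rfl fun i _ => ?_
    rw [map_smul, hb, KaehlerDifferential.map_D, hB, Fin.append_left, algebraMap_smul]
  refine ⟨B₀.reindex e, hB, fun f i => ?_, fun f j => ?_⟩
  · rw [hD]
    simp only [map_sum, map_smul, Basis.repr_self, Finsupp.finsetSum_apply, Finsupp.smul_apply,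
      smul_eq_mul, Finsupp.single_apply, mul_ite, mul_one, mul_zero]
    rw [Finset.sum_eq_single i]
    · simp
    · intro j _ hj
      rw [if_neg]
      intro h
      exact hj (Fin.castAdd_injective d r h)
    · simp
  · rw [hD]
    simp only [map_sum, map_smul, Basis.repr_self, Finsupp.finsetSum_apply, Finsupp.smul_apply,
      smul_eq_mul, Finsupp.single_apply, mul_ite, mul_one, mul_zero]
    refine Finset.sum_eq_zero fun i _ => ?_
    rw [if_neg]
    intro h
    have := congrArg Fin.val h
    simp at this
    have := i.2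
    omega

end Pool.Agent.Helper50.Forms
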